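import Pool.Agent.W492.PC.Fin

/-!
# MP_6d0ce9_ag : the motivic t-structure over a finite field

`T` is an idempotent complete rigid tensor triangulated category, linear over a field `F` of
characteristic `0`, the `R i : T ⥤ D i` (`i ∈ I`, `I` nonempty) are triangulated tensor functors to
tensor triangulated categories with t-structures `s i`, and `𝒞` is a class of objects of `T`, with
the formal properties listed in the structure `Setup`; `Fr` is a natural endomorphism of the
identity functor of `T` with the properties listed in `Weil`.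
(For the problem : `T = DM_c(k)` with `k` a finite field, `F = ℚ`, `I` = the primes `ℓ ≠ char k`,
`R ℓ` the `ℓ`-adic realisation, `𝒞` = the Chow motives, `Fr` the Frobenius. The properties of the
Frobenius are due to Deligne and to Katz and Messing.)

The following are equivalent.
1. `T` has a non-degenerate t-structure, for which the tensor product is t-exact, and such that all
   the `R i` are t-exact (this is Q1 for the finite field `k`).
2. For every Chow motive `X` one has `Hom(1, X[m]) = 0` for `m ≠ 0`, and every nonzero morphism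
   `g : X ⟶ 1` is numerically nontrivial. For the finite field `k` this says that
   `K_i(V) ⊗ ℚ = 0` for `i > 0` (Parshin's conjecture), and that rational and numerical equivalence
   agree with rational coefficients (Beilinson's conjecture), for all smooth projective `V` over `k`.
3. `T` is semisimple : every morphism `f` of `T` has an `h` with `f ≫ h ≫ f = f`.

So for a finite field `k` the motivic t-structure exists if and only if the conjectures of Parshin
and of Beilinson hold for `k`, if and only if `DM_c(k)` is semisimple.
-/

open CategoryTheory Limits MonoidalCategory Triangulated Pretriangulated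

namespace Pool.Agent.Results.MP_6d0ce9_ag.FiniteFields

open Pool.Agent.W492.MT

universe v u v' u' w

theorem result {T : Type u} [Category.{v} T] [HasZeroObject T] [HasShift T ℤ] [Preadditive T]
    [∀ n : ℤ, (shiftFunctor T n).Additive] [Pretriangulated T] [IsTriangulated T]
    [IsIdempotentComplete T] [MonoidalCategory T] [SymmetricCategory T] [RightRigidCategory T]
    [∀ X : T, (tensorLeft X).CommShift ℤ] [∀ X : T, (tensorLeft X).IsTriangulated]
    [MonoidalPreadditive T] {F : Type} [Field F] [CharZero F] [Linear F T] [MonoidalLinear F T]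
    {I : Type w} [Nonempty I] {D : I → Type u'} [∀ i, Category.{v'} (D i)]
    [∀ i, HasZeroObject (D i)] [∀ i, HasShift (D i) ℤ] [∀ i, Preadditive (D i)]
    [∀ i, ∀ n : ℤ, (shiftFunctor (D i) n).Additive] [∀ i, Pretriangulated (D i)]
    [∀ i, IsTriangulated (D i)] [∀ i, MonoidalCategory (D i)] [∀ i, MonoidalPreadditive (D i)]
    (R : ∀ i, T ⥤ D i) [∀ i, (R i).CommShift ℤ] [∀ i, (R i).IsTriangulated]
    [∀ i, (R i).Monoidal] (s : ∀ i, TStructure (D i)) (𝒞 : ObjectProperty T)
    (h : Setup R s 𝒞 F) (Fr : ∀ X : T, X ⟶ X) (hW : Weil R s 𝒞 Fr) :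
    List.TFAE [
      ∃ t : TStructure T, NonDegenerate t ∧ TensorExact t ∧ ∀ i, TExact t (s i) (R i),
      ∀ X, 𝒞 X → (∀ m : ℤ, m ≠ 0 → ∀ f : 𝟙_ T ⟶ X⟦m⟧, f = 0) ∧
        ∀ g : X ⟶ 𝟙_ T, g ≠ 0 → ∃ x : 𝟙_ T ⟶ X, x ≫ g ≠ 0,
      ∀ (X Y : T) (f : X ⟶ Y), ∃ h : Y ⟶ X, f ≫ h ≫ f = f] :=
  Pool.Agent.W492.PC.finite_field_criterion h hW

end Pool.Agent.Results.MP_6d0ce9_ag.FiniteFields
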