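import Pool.Agent.W492.PC.Fin

/-!
# MP_6d0ce9_ag : the motivic t-structure in terms of Chow motives, in every characteristic

`T` is an idempotent complete rigid tensor triangulated category, linear over a field `F` of
characteristic `0`, the `R i : T ⥤ D i` (`i ∈ I`, `I` nonempty) are triangulated tensor functors to
tensor triangulated categories with t-structures `s i`, and `𝒞` is a class of objects of `T`, with
the formal properties listed in the structure `Setup`, and `Lefschetz` (hard Lefschetz).
(For the problem : `T = DM_c(k)`, `k` any field, `F = ℚ`, `I` = the primes `ℓ ≠ char k`, `R ℓ` the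
`ℓ`-adic realisation, `𝒞` = the Chow motives, that is the direct summands of the motives
`h(V)(r)[2r]` with `V` smooth projective over the perfect closure of `k`. Orthogonality and
generation are due to Voevodsky and Bondarko, hard Lefschetz to Deligne.)

The following are equivalent.
1. `T` has a non-degenerate t-structure, for which the tensor product is t-exact, and such that all
   the `R i` are t-exact (this is Q1 for `k`).
2. Every Chow motive is a finite direct sum of Chow motives `X` whose realisations are all
   concentrated in one degree `d`, and for such an `X` one has `Hom(1, X[m]) = 0` for `m < d`, and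
   every nonzero morphism `g : X[d] ⟶ 1` is numerically nontrivial : `x ≫ g ≠ 0` for some
   `x : 1 ⟶ X[d]`.
3. The same with `g ≠ 0` numerically nontrivial replaced by : some `R i` is conservative on `T`,
   and `g = 0` if `R i g = 0`.

In particular a motivic t-structure forces homological and numerical equivalence to agree in every
characteristic; in positive characteristic this does not follow from the Lefschetz standard
conjecture. The argument : the cone `W` of `g : N ⟶ 1` (with `N = X[d]` pure of degree and weight
`0` and `R g ≠ 0`) is concentrated in degree `-1`, so that by conservativity a symmetric power of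
`W` vanishes; hence the extension class `δ : 1 ⟶ W` is tensor nilpotent, and by the orthogonality of
Chow motives this is possible only if `g` splits.
-/

open CategoryTheory Limits MonoidalCategory Triangulated Pretriangulated

namespace Pool.Agent.Results.MP_6d0ce9_ag.PureCriterion

open Pool.Agent.W492.MT

universe v u v' u' w

theorem result {T : Type u} [Category.{v} T] [HasZeroObject T] [HasShift T ℤ] [Preadditive T]
    [∀ n : ℤ, (shiftFunctor T n).Additive] [Pretriangulated T] [IsTriangulated T]
    [IsIdempotentComplete T] [MonoidalCategory T] [SymmetricCategory T] [RightRigidCategory T]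
    [∀ X : T, (tensorLeft X).CommShift ℤ] [∀ X : T, (tensorLeft X).IsTriangulated]
    [MonoidalPreadditive T] {F : Type} [Field F] [CharZero F] [Linear F T] [MonoidalLinear F T]
    {I : Type w} [Nonempty I] {D : I → Type u'} [∀ i, Category.{v'} (D i)]
    [∀ i, HasZeroObject (D i)] [∀ i, HasShift (D i) ℤ] [∀ i, Preadditive (D i)]
    [∀ i, ∀ n : ℤ, (shiftFunctor (D i) n).Additive] [∀ i, Pretriangulated (D i)]
    [∀ i, IsTriangulated (D i)] [∀ i, MonoidalCategory (D i)] [∀ i, MonoidalPreadditive (D i)]
    (R : ∀ i, T ⥤ D i) [∀ i, (R i).CommShift ℤ] [∀ i, (R i).IsTriangulated]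
    [∀ i, (R i).Monoidal] (s : ∀ i, TStructure (D i)) (𝒞 : ObjectProperty T)
    (h : Setup R s 𝒞 F) (hL : Lefschetz R s 𝒞) :
    List.TFAE [
      ∃ t : TStructure T, NonDegenerate t ∧ TensorExact t ∧ ∀ i, TExact t (s i) (R i),
      Kunneth R s 𝒞 ∧ ∀ (X : T) (d : ℤ), 𝒞 X → InDeg R s d X →
        (∀ m : ℤ, m < d → ∀ f : 𝟙_ T ⟶ X⟦m⟧, f = 0) ∧
          ∀ g : X⟦d⟧ ⟶ 𝟙_ T, g ≠ 0 → ∃ x : 𝟙_ T ⟶ X⟦d⟧, x ≫ g ≠ 0,
      Kunneth R s 𝒞 ∧ ∃ i, (R i).ReflectsIsomorphisms ∧
        ∀ (X : T) (d : ℤ), 𝒞 X → InDeg R s d X →
          (∀ m : ℤ, m < d → ∀ f : 𝟙_ T ⟶ X⟦m⟧, f = 0) ∧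
            ∀ g : X⟦d⟧ ⟶ 𝟙_ T, (R i).map g = 0 → g = 0] :=
  Pool.Agent.W492.PC.general_criterion h hL

end Pool.Agent.Results.MP_6d0ce9_ag.PureCriterion
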