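import Pool.Agent.W492.TS.Final

/-!
# MP_6d0ce9_ag : when does the motivic t-structure exist ?

`T` is an idempotent complete rigid tensor triangulated category whose unit has no idempotent
endomorphisms but `0` and `1`, and `R i : T ⥤ D i` (`i ∈ I`, `I` nonempty) are triangulated tensor
functors to tensor triangulated categories with bounded t-structures `s i` for which the tensor
product is t-exact, and with nonzero unit.
(For the problem : `T = DM_c(k)`, `k` any field, `I` = the primes `ℓ ≠ char k`, `R ℓ` the `ℓ`-adic
realisation, `D ℓ` the bounded derived category of constructible `ℓ`-adic sheaves on `Spec k`.)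

The following are equivalent.
1. `T` has a non-degenerate t-structure, for which the tensor product is t-exact, and such that all
   the `R i` are t-exact (this is Q1 for `k`).
2. The same, requiring only that tensoring with an object of the heart is t-exact.
3. There is exactly one t-structure as in 2; it is as in 1 and for EACH single `i` an object `X` is
   `≤ n` (`≥ n`) iff `R i X` is.
4. All the `R i` are conservative, and every object `M` of `T` sits in a distinguished triangle
   `A → M → B → A⟦1⟧` with `R i A ≤ 0` and `R i B ≥ 1` for all `i`.
5. The same, the `R i` being only jointly conservative.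
6. The `R i` are jointly conservative, the objects `A` of `T` with all `R i A` concentrated in
   degree `0` generate `T` as a thick subcategory, and for `n < m` and every distinguished triangle
   `X → M → Y → X⟦1⟧` with all `R i X` concentrated in degree `m` and all `R i Y` in degree `n`, the
   object `M` has a triangle `A → M → B → A⟦1⟧` with `R i A ≤ n` and `R i B ≥ n + 1` for all `i`.

So orthogonality, non-degeneracy, compatibility with the tensor product and independence of `ℓ` are
automatic, and what Q1 asks is conservativity plus the lifting of truncation triangles, which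
need only be checked on the two-step objects `M` of 6. In particular a t-structure as in Q1 forces
each `ℓ`-adic realisation to be conservative in every characteristic.
-/

open CategoryTheory Limits MonoidalCategory Triangulated Pretriangulated

namespace Pool.Agent.Results.MP_6d0ce9_ag.TStructureCriterion

open Pool.Agent.W492.TS

universe v u v' u' w

theorem result {T : Type u} [Category.{v} T] [HasZeroObject T] [HasShift T ℤ] [Preadditive T]
    [∀ n : ℤ, (shiftFunctor T n).Additive] [Pretriangulated T] [IsTriangulated T]
    [IsIdempotentComplete T] [MonoidalCategory T] [SymmetricCategory T] [RightRigidCategory T]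
    [∀ X : T, (tensorLeft X).CommShift ℤ] [∀ X : T, (tensorLeft X).IsTriangulated]
    (hone : ∀ e : 𝟙_ T ⟶ 𝟙_ T, e ≫ e = e → e = 0 ∨ e = 𝟙 _)
    {I : Type w} [Nonempty I] {D : I → Type u'} [∀ i, Category.{v'} (D i)]
    [∀ i, HasZeroObject (D i)] [∀ i, HasShift (D i) ℤ] [∀ i, Preadditive (D i)]
    [∀ i, ∀ n : ℤ, (shiftFunctor (D i) n).Additive] [∀ i, Pretriangulated (D i)]
    [∀ i, IsTriangulated (D i)] [∀ i, MonoidalCategory (D i)] [∀ i, MonoidalPreadditive (D i)]
    (R : ∀ i, T ⥤ D i) [∀ i, (R i).CommShift ℤ] [∀ i, (R i).IsTriangulated]
    [∀ i, (R i).Monoidal] (s : ∀ i, TStructure (D i)) (hunit : ∀ i, ¬ IsZero (𝟙_ (D i)))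
    (hbdd : ∀ i, Bounded (s i)) (hten : ∀ i, TensorExact (s i)) :
    List.TFAE [
      ∃ t : TStructure T, NonDegenerate t ∧ TensorExact t ∧ ∀ i, TExact t (s i) (R i),
      ∃ t : TStructure T, NonDegenerate t ∧ HeartTensorExact t ∧ ∀ i, TExact t (s i) (R i),
      ∃ t : TStructure T, Motivic R s t ∧ (∀ t', Motivic R s t' → t' = t) ∧ TensorExact t ∧
        ∀ (i : I) (n : ℤ) (X : T), (t.le n X ↔ (s i).le n ((R i).obj X)) ∧
          (t.ge n X ↔ (s i).ge n ((R i).obj X)),
      (∀ i, (R i).ReflectsIsomorphisms) ∧ ∀ M : T, LiftsAt R s 0 M,
      JointlyConservative R ∧ ∀ M : T, LiftsAt R s 0 M,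
      JointlyConservative R ∧ (RDeg R s 0).IsClassicalTriangulatedGenerator ∧
        TwoStep R s] :=
  main hone hunit hbdd hten

end Pool.Agent.Results.MP_6d0ce9_ag.TStructureCriterion
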